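import Mathlib

/-!
# LuA / Det : ranks of integer matrices modulo a prime (MP_05b873_al)

Paper proof. Let `r` be the rank of `A` over the rationals and `s` its rank modulo `p`. There is an
`r × r` submatrix `B` with `det B ≠ 0` (`Matrix.exists_...` or choose `r` linearly independent rows,
then `r` linearly independent columns). The rank of `B` modulo `p` is at most `s`
(submatrix), so `p ^ (r - s)` divides `det B`: there are `r - s` linearly independent vectors in the
kernel of `B` modulo `p`; complete a basis of the kernel to a basis of `F_p ^ r`, lift it to an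
integer matrix `V` whose determinant is prime to `p`; the first `r - s` columns of `B V` are
divisible by `p`, so `p ^ (r - s)` divides `det B * det V`. On the other hand
`|det B| ≤ ∏ (absolute row sums) ≤ K ^ r` (expand the product of the row sums; permutations are
among the terms). Hence `(r - s) log p ≤ r log K`.
-/

namespace Pool.Agent.LuA

private theorem Det_abs_real {r : ℕ} (M : Matrix (Fin r) (Fin r) ℝ) :
    |M.det| ≤ ∏ i, ∑ j, |M i j| := by
  classical
  rw [← Matrix.det_transpose, Matrix.det_apply']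
  have h1 : |∑ σ : Equiv.Perm (Fin r), ((Equiv.Perm.sign σ : ℤ) : ℝ) * ∏ i, M.transpose (σ i) i| ≤
      ∑ σ : Equiv.Perm (Fin r), ∏ i, |M i (σ i)| := by
    refine (Finset.abs_sum_le_sum_abs _ _).trans (Finset.sum_le_sum fun σ _ => ?_)
    rw [abs_mul, Finset.abs_prod]
    have h2 : |((Equiv.Perm.sign σ : ℤ) : ℝ)| = 1 := by
      rcases Int.units_eq_one_or (Equiv.Perm.sign σ) with h | h <;> simp [h]
    rw [h2, one_mul]
    exact le_of_eq (Finset.prod_congr rfl fun i _ => rfl)
  have h2 : ∑ σ : Equiv.Perm (Fin r), ∏ i, |M i (σ i)| ≤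
      ∑ f : Fin r → Fin r, ∏ i, |M i (f i)| := by
    have hinj : Function.Injective (fun σ : Equiv.Perm (Fin r) => (σ : Fin r → Fin r)) :=
      DFunLike.coe_injective
    rw [← Finset.sum_image (s := Finset.univ) (g := fun σ : Equiv.Perm (Fin r) =>
      (σ : Fin r → Fin r)) (f := fun f : Fin r → Fin r => ∏ i, |M i (f i)|)
      (fun a _ b _ h => hinj h)]
    exact Finset.sum_le_sum_of_subset_of_nonneg (Finset.subset_univ _)
      (fun f _ _ => Finset.prod_nonneg fun i _ => abs_nonneg _)
  have h3 : ∑ f : Fin r → Fin r, ∏ i, |M i (f i)| = ∏ i, ∑ j, |M i j| := by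
    rw [Finset.prod_univ_sum]
    simp
  rw [← h3]
  exact h1.trans h2

private theorem Det_exists_rows {K : Type*} [Field K] {ι : Type*} [Fintype ι]
    {κ' : Type*} [Fintype κ'] [DecidableEq κ'] (B : Matrix ι κ' K)
    (hB : LinearIndependent K B.col) :
    ∃ f : κ' → ι, (B.submatrix f id).det ≠ 0 := by
  obtain ⟨μ, a, _, hspan, hli⟩ := exists_linearIndependent' K B.row
  have hfin : Finite μ := hli.finite
  have : Fintype μ := Fintype.ofFinite μ
  have h1 : Module.finrank K (Submodule.span K (Set.range (B.row ∘ a))) = Fintype.card μ :=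
    finrank_span_eq_card hli
  have h2 : B.rank = Fintype.card μ := by
    rw [Matrix.rank_eq_finrank_span_row, ← hspan, h1]
  have h3 : B.rank = Fintype.card κ' := by
    rw [Matrix.rank_eq_finrank_span_cols, finrank_span_eq_card hB]
  let e : κ' ≃ μ := Fintype.equivOfCardEq (h3.symm.trans h2)
  refine ⟨fun j => a (e j), ?_⟩
  have h4 : LinearIndependent K (B.submatrix (fun j => a (e j)) id).row := by
    have := hli.comp e e.injective
    exact this
  have h5 := Matrix.linearIndependent_rows_iff_isUnit.1 h4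
  rw [Matrix.isUnit_iff_isUnit_det] at h5
  exact h5.ne_zero

private theorem Det_exists_minor {K : Type*} [Field K] {ι κ : Type*} [Fintype ι] [Fintype κ]
    (A : Matrix ι κ K) :
    ∃ (f : Fin A.rank → ι) (g : Fin A.rank → κ), (A.submatrix f g).det ≠ 0 := by
  obtain ⟨κ', a, _, hspan, hli⟩ := exists_linearIndependent' K A.col
  have hfin : Finite κ' := hli.finite
  have : Fintype κ' := Fintype.ofFinite κ'
  have h1 : Module.finrank K (Submodule.span K (Set.range (A.col ∘ a))) = Fintype.card κ' :=
    finrank_span_eq_card hli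
  have h2 : A.rank = Fintype.card κ' := by
    rw [Matrix.rank_eq_finrank_span_cols, ← hspan, h1]
  let e : Fin A.rank ≃ κ' := Fintype.equivOfCardEq (by rw [Fintype.card_fin, h2])
  have h4 : LinearIndependent K (A.submatrix id (fun j => a (e j))).col := by
    have := hli.comp e e.injective
    exact this
  obtain ⟨f, hf⟩ := Det_exists_rows _ h4
  exact ⟨f, fun j => a (e j), hf⟩

/-- the determinant of a submatrix of an integer matrix, over a ring -/
private theorem Det_cast_sub {R : Type*} [CommRing R] {ι κ : Type*} {r : ℕ} (A : Matrix ι κ ℤ)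
    (f : Fin r → ι) (g : Fin r → κ) :
    ((A.map (fun x : ℤ => (x : R))).submatrix f g).det = (((A.submatrix f g).det : ℤ) : R) := by
  have h := RingHom.map_det (Int.castRingHom R) (A.submatrix f g)
  rw [eq_intCast] at h
  rw [h]
  rfl

theorem abs_det_le {r : ℕ} (B : Matrix (Fin r) (Fin r) ℤ) :
    |(B.det : ℝ)| ≤ ∏ i, ∑ j, |(B i j : ℝ)| := by
  have h := Det_abs_real (B.map (fun x : ℤ => (x : ℝ)))
  have h1 : (B.map (fun x : ℤ => (x : ℝ))).det = ((B.det : ℤ) : ℝ) := by
    have h := RingHom.map_det (Int.castRingHom ℝ) B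
    rw [eq_intCast] at h
    rw [h]
    rfl
  rw [h1] at h
  exact h

private theorem Det_dvd_rows {m κ : Type*} [Fintype m] [DecidableEq m] [Fintype κ]
    [DecidableEq κ] {s : ℕ} (e : m ≃ κ ⊕ Fin s) (q : ℤ) (M : Matrix m m ℤ)
    (h : ∀ (i : Fin s) (j : m), q ∣ M (e.symm (Sum.inr i)) j) : q ^ s ∣ M.det := by
  classical
  choose N hN using h
  have h1 : M.submatrix e.symm e.symm =
      Matrix.diagonal (Sum.elim (fun _ : κ => (1 : ℤ)) (fun _ : Fin s => q)) *
        Matrix.of (fun (i : κ ⊕ Fin s) (j : κ ⊕ Fin s) =>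
          Sum.elim (fun k : κ => M (e.symm (Sum.inl k)) (e.symm j))
            (fun k : Fin s => N k (e.symm j)) i) := by
    ext i j
    rw [Matrix.diagonal_mul]
    rcases i with i | i
    · simp
    · simp [hN]
  have h2 : M.det = (M.submatrix e.symm e.symm).det := (Matrix.det_submatrix_equiv_self _ _).symm
  rw [h2, h1, Matrix.det_mul, Matrix.det_diagonal, Fintype.prod_sum_type]
  simp

theorem dvd_det {r : ℕ} (p : ℕ) [Fact p.Prime] (B : Matrix (Fin r) (Fin r) ℤ) :
    ((p : ℤ) ^ (r - (B.map (fun x : ℤ => (x : ZMod p))).rank)) ∣ B.det := by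
  classical
  obtain ⟨V, U, e, hV, hU, hVU⟩ :=
    Matrix.exists_rank_normal_form (B.map (fun x : ℤ => (x : ZMod p)))
  have hp : p.Prime := Fact.out
  -- integral lifts
  set V' : Matrix (Fin r) (Fin r) ℤ := V.map (fun x => (x.val : ℤ)) with hV'
  set U' : Matrix (Fin r) (Fin r) ℤ := U.map (fun x => (x.val : ℤ)) with hU'
  have hmapV : V'.map (Int.castRingHom (ZMod p)) = V := by
    ext i j
    simp [hV']
  have hmapU : U'.map (Int.castRingHom (ZMod p)) = U := by
    ext i j
    simp [hU']
  have hcop : ∀ (W : Matrix (Fin r) (Fin r) (ZMod p)) (W' : Matrix (Fin r) (Fin r) ℤ),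
      W'.map (Int.castRingHom (ZMod p)) = W → IsUnit W → IsCoprime ((p : ℤ)) W'.det := by
    intro W W' hW hWu
    have h1 : ((W'.det : ℤ) : ZMod p) ≠ 0 := by
      have h := RingHom.map_det (Int.castRingHom (ZMod p)) W'
      rw [eq_intCast] at h
      rw [h]
      change (W'.map (Int.castRingHom (ZMod p))).det ≠ 0
      rw [hW]
      exact ((Matrix.isUnit_iff_isUnit_det _).1 hWu).ne_zero
    have h2 : Prime (p : ℤ) := Nat.prime_iff_prime_int.1 hp
    refine (Irreducible.coprime_iff_not_dvd h2.irreducible).2 ?_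
    intro h3
    exact h1 ((ZMod.intCast_zmod_eq_zero_iff_dvd _ _).2 h3)
  have hdvd : ((p : ℤ) ^ (r - (B.map (fun x : ℤ => (x : ZMod p))).rank)) ∣
      (V' * B * U').det := by
    have hc : Fintype.card (Fin r) - (B.map (fun x : ℤ => (x : ZMod p))).rank =
        r - (B.map (fun x : ℤ => (x : ZMod p))).rank := by
      rw [Fintype.card_fin]
    rw [← hc]
    refine Det_dvd_rows e (p : ℤ) (V' * B * U') ?_
    intro i j
    rw [← ZMod.intCast_zmod_eq_zero_iff_dvd]
    have h1 : (V' * B * U').map (Int.castRingHom (ZMod p)) =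
        V * (B.map (fun x : ℤ => (x : ZMod p))) * U := by
      rw [Matrix.map_mul, Matrix.map_mul, hmapV, hmapU]
      rfl
    have h2 := congrFun (congrFun h1 (e.symm (Sum.inr i))) j
    rw [hVU] at h2
    refine h2.trans ?_
    rw [Matrix.submatrix_apply, Equiv.apply_symm_apply]
    rcases e j with k | k
    · simp
    · simp
  rw [Matrix.det_mul, Matrix.det_mul] at hdvd
  have h1 := (hcop V V' hmapV hV).pow_left (m := r - (B.map (fun x : ℤ => (x : ZMod p))).rank)
  have h2 := (hcop U U' hmapU hU).pow_left (m := r - (B.map (fun x : ℤ => (x : ZMod p))).rank)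
  have h3 := h2.dvd_of_dvd_mul_right hdvd
  exact h1.dvd_of_dvd_mul_left h3

theorem rank_sub_le {ι κ : Type*} [Fintype ι] [Fintype κ] (A : Matrix ι κ ℤ) (p : ℕ)
    [Fact p.Prime] (K : ℝ) (hK : 1 ≤ K) (hrow : ∀ i, ∑ j, |(A i j : ℝ)| ≤ K) :
    (((A.map (fun x : ℤ => (x : ℚ))).rank : ℝ) -
      (A.map (fun x : ℤ => (x : ZMod p))).rank) * Real.log p ≤
      (A.map (fun x : ℤ => (x : ℚ))).rank * Real.log K := by
  classical
  have hex := Det_exists_minor (A.map (fun x : ℤ => (x : ℚ)))
  set r := (A.map (fun x : ℤ => (x : ℚ))).rank with hr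
  set s := (A.map (fun x : ℤ => (x : ZMod p))).rank with hs
  obtain ⟨f, g, hfg⟩ := hex
  rw [Det_cast_sub] at hfg
  have hdet : (A.submatrix f g).det ≠ 0 := fun h => hfg (by rw [h, Int.cast_zero])
  have hp : p.Prime := Fact.out
  have hp1 : (1 : ℝ) < p := by exact_mod_cast hp.one_lt
  have hlp : 0 < Real.log p := Real.log_pos hp1
  have hg : Function.Injective g := by
    intro i j hij
    by_contra hne
    refine hdet (Matrix.det_zero_of_column_eq hne fun k => ?_)
    rw [Matrix.submatrix_apply, Matrix.submatrix_apply, hij]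
  set sB := ((A.submatrix f g).map (fun x : ℤ => (x : ZMod p))).rank with hsB
  have h1 : sB ≤ s := by
    have h := Matrix.rank_submatrix_le (A.map (fun x : ℤ => (x : ZMod p))) f g
    exact h
  have h2 : sB ≤ r := by
    have h := Matrix.rank_le_card_width ((A.submatrix f g).map (fun x : ℤ => (x : ZMod p)))
    rwa [Fintype.card_fin] at h
  have h3 : ((p : ℤ) ^ (r - sB)) ∣ (A.submatrix f g).det := dvd_det p _
  have h4 : (p : ℤ) ^ (r - sB) ≤ |(A.submatrix f g).det| := by
    refine Int.le_of_dvd (abs_pos.2 hdet) ?_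
    rwa [dvd_abs]
  have h5 : (p : ℝ) ^ (r - sB) ≤ |((A.submatrix f g).det : ℝ)| := by
    exact_mod_cast h4
  have h6 := abs_det_le (A.submatrix f g)
  have h7 : ∏ i, ∑ j, |((A.submatrix f g) i j : ℝ)| ≤ K ^ r := by
    calc ∏ i, ∑ j, |((A.submatrix f g) i j : ℝ)| ≤ ∏ _i : Fin r, K := by
          refine Finset.prod_le_prod (fun i _ => Finset.sum_nonneg fun j _ => abs_nonneg _)
            fun i _ => ?_
          refine le_trans ?_ (hrow (f i))
          have h8 : ∑ j, |((A.submatrix f g) i j : ℝ)| =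
              ∑ k ∈ Finset.univ.map ⟨g, hg⟩, |(A (f i) k : ℝ)| := by
            rw [Finset.sum_map]
            rfl
          rw [h8]
          exact Finset.sum_le_sum_of_subset_of_nonneg (Finset.subset_univ _)
            fun _ _ _ => abs_nonneg _
      _ = K ^ r := by simp
  have h8 : (p : ℝ) ^ (r - sB) ≤ K ^ r := h5.trans (h6.trans h7)
  have h9 := Real.log_le_log (by positivity) h8
  rw [Real.log_pow, Real.log_pow, Nat.cast_sub h2] at h9
  have h10 : (sB : ℝ) ≤ s := by exact_mod_cast h1
  nlinarith [mul_le_mul_of_nonneg_right h10 hlp.le]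

/-- the rank modulo `p` is at most the rational rank -/
theorem rank_mod_le {ι κ : Type*} [Fintype ι] [Fintype κ] (A : Matrix ι κ ℤ) (p : ℕ)
    [Fact p.Prime] : (A.map (fun x : ℤ => (x : ZMod p))).rank ≤
      (A.map (fun x : ℤ => (x : ℚ))).rank := by
  classical
  obtain ⟨f, g, hfg⟩ := Det_exists_minor (A.map (fun x : ℤ => (x : ZMod p)))
  rw [Det_cast_sub] at hfg
  have hdet : (A.submatrix f g).det ≠ 0 := fun h => hfg (by rw [h, Int.cast_zero])
  have h1 : ((A.map (fun x : ℤ => (x : ℚ))).submatrix f g).det ≠ 0 := by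
    rw [Det_cast_sub]
    exact_mod_cast hdet
  have h2 := Matrix.rank_submatrix_le (A.map (fun x : ℤ => (x : ℚ))) f g
  rw [Matrix.rank_of_det_ne_zero h1, Fintype.card_fin] at h2
  exact h2

end Pool.Agent.LuA
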