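import Mathlib

/-!
# LuA / Spec : eigenvalues of positive semidefinite integer matrices (MP_05b873_al)

Paper proof of `ker_bounds`. `B` is a symmetric positive semidefinite integer matrix of size
`N = card ι` whose rows have absolute sums at most `K`, `K ≥ 1`. Its real eigenvalues
`λ_1, ..., λ_N` lie in `[0, K]` (Gershgorin, or: take an entry of an eigenvector of maximal absolute
value). The dimension of the kernel is `d = #{i : λ_i = 0} = N - rank`
(`Matrix.IsHermitian.rank_eq_card_non_zero_eigs`). The trace of `(1 - B / K) ^ m` is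
`∑ (1 - λ_i / K) ^ m` (diagonalise: spectral theorem, or trace of a polynomial in `B`). All terms are
nonnegative and those with `λ_i = 0` are `1`; this gives the first inequality. For the second one:
the terms with `λ_i ≥ ε` are at most `(1 - ε / K) ^ m`, and the number `s` of the `i` with
`0 < λ_i < ε` satisfies `s * log (1 / ε) ≤ N * log K`: the characteristic polynomial of `B` has
integer coefficients (`Matrix.charpoly_map`) and equals `X ^ d ∏_{λ_i ≠ 0} (X - λ_i)`, so the product
of the nonzero eigenvalues is up to sign an integer coefficient, not zero, hence at least `1` in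
absolute value; taking logarithms, `0 ≤ ∑_{λ_i ≠ 0} log λ_i ≤ s log ε + N log K`.
-/

namespace Pool.Agent.LuA

open Matrix

private theorem Spec_le {ι : Type*} [Fintype ι] [DecidableEq ι] {A : Matrix ι ι ℝ}
    (hA : A.IsHermitian) (K : ℝ) (hrow : ∀ i, ∑ j, |A i j| ≤ K) (i : ι) :
    hA.eigenvalues i ≤ K := by
  set v : ι → ℝ := (hA.eigenvectorBasis i).ofLp with hv
  have he : A *ᵥ v = hA.eigenvalues i • v := hA.mulVec_eigenvectorBasis i
  have hv0 : v ≠ 0 := by
    intro h0
    have h1 : hA.eigenvectorBasis i = 0 := by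
      ext j
      exact congrFun h0 j
    have h2 := hA.eigenvectorBasis.norm_eq_one i
    rw [h1, norm_zero] at h2
    exact zero_ne_one h2
  obtain ⟨k, -, hk⟩ := Finset.exists_max_image Finset.univ (fun j => |v j|) ⟨i, Finset.mem_univ i⟩
  have hk0 : 0 < |v k| := by
    by_contra hcon
    apply hv0
    funext j
    have h1 := hk j (Finset.mem_univ j)
    have h2 := abs_nonneg (v j)
    have h3 : |v j| = 0 := le_antisymm (by linarith) h2
    simpa using h3
  have h1 := congrFun he k
  rw [Pi.smul_apply, smul_eq_mul] at h1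
  have h2 : |hA.eigenvalues i * v k| ≤ K * |v k| := by
    rw [← h1]
    unfold Matrix.mulVec dotProduct
    calc |∑ j, A k j * v j| ≤ ∑ j, |A k j * v j| := Finset.abs_sum_le_sum_abs _ _
      _ = ∑ j, |A k j| * |v j| := by simp only [abs_mul]
      _ ≤ ∑ j, |A k j| * |v k| := by
          refine Finset.sum_le_sum fun j _ => ?_
          exact mul_le_mul_of_nonneg_left (hk j (Finset.mem_univ j)) (abs_nonneg _)
      _ = (∑ j, |A k j|) * |v k| := by rw [Finset.sum_mul]
      _ ≤ K * |v k| := mul_le_mul_of_nonneg_right (hrow k) hk0.le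
  rw [abs_mul] at h2
  exact (le_abs_self _).trans (le_of_mul_le_mul_right h2 hk0)

private theorem Spec_trace {ι : Type*} [Fintype ι] [DecidableEq ι] {A : Matrix ι ι ℝ}
    (hA : A.IsHermitian) (c : ℝ) (m : ℕ) :
    Matrix.trace ((1 - c • A) ^ m) = ∑ i, (1 - c * hA.eigenvalues i) ^ m := by
  have h1 : (1 - c • A) ^ m = Unitary.conjStarAlgAut ℝ _ hA.eigenvectorUnitary
      (diagonal fun i => (1 - c * hA.eigenvalues i) ^ m) := by
    conv_lhs => rw [hA.spectral_theorem]
    rw [← map_smul, ← map_one (Unitary.conjStarAlgAut ℝ _ hA.eigenvectorUnitary), ← map_sub,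
      ← map_pow]
    congr 1
    have h2 : (1 : Matrix ι ι ℝ) - c • diagonal (RCLike.ofReal ∘ hA.eigenvalues) =
        diagonal (fun i => 1 - c * hA.eigenvalues i) := by
      rw [← diagonal_one, ← diagonal_smul, diagonal_sub]
      rfl
    rw [h2, diagonal_pow]
    rfl
  rw [h1, Unitary.conjStarAlgAut_apply, Matrix.trace_mul_cycle]
  have h3 : (star (hA.eigenvectorUnitary : Matrix ι ι ℝ)) * (hA.eigenvectorUnitary :
      Matrix ι ι ℝ) = 1 := Unitary.star_mul_self_of_mem hA.eigenvectorUnitary.2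
  rw [h3, one_mul, trace_diagonal]

private theorem Spec_prod {ι : Type*} [Fintype ι] [DecidableEq ι] (B : Matrix ι ι ℤ)
    (hA : (B.map (fun x : ℤ => (x : ℝ))).IsHermitian) :
    1 ≤ |∏ i ∈ Finset.univ.filter (fun i => hA.eigenvalues i ≠ 0), hA.eigenvalues i| := by
  classical
  set d := (Finset.univ.filter (fun i => ¬ hA.eigenvalues i ≠ 0)).card with hd
  have h1 := hA.charpoly_eq
  have h2 : (B.map (fun x : ℤ => (x : ℝ))).charpoly = B.charpoly.map (Int.castRingHom ℝ) :=
    Matrix.charpoly_map B (Int.castRingHom ℝ)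
  have h3 : ∏ i, (Polynomial.X - Polynomial.C ((hA.eigenvalues i : ℝ))) =
      (∏ i ∈ Finset.univ.filter (fun i => hA.eigenvalues i ≠ 0),
        (Polynomial.X - Polynomial.C (hA.eigenvalues i))) * Polynomial.X ^ d := by
    rw [← Finset.prod_filter_mul_prod_filter_not Finset.univ (fun i => hA.eigenvalues i ≠ 0)]
    congr 1
    rw [hd, ← Finset.prod_const]
    refine Finset.prod_congr rfl fun i hi => ?_
    have : hA.eigenvalues i = 0 := by simpa using hi
    rw [this, Polynomial.C_0, sub_zero]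
  have h4 : (B.charpoly.map (Int.castRingHom ℝ)).coeff d =
      ∏ i ∈ Finset.univ.filter (fun i => hA.eigenvalues i ≠ 0), (-hA.eigenvalues i) := by
    rw [← h2, h1]
    change (∏ i, (Polynomial.X - Polynomial.C ((hA.eigenvalues i : ℝ)))).coeff d = _
    rw [h3]
    have := Polynomial.coeff_mul_X_pow (∏ i ∈ Finset.univ.filter (fun i => hA.eigenvalues i ≠ 0),
        (Polynomial.X - Polynomial.C (hA.eigenvalues i))) d 0
    rw [zero_add] at this
    rw [this, Polynomial.coeff_zero_eq_eval_zero, Polynomial.eval_prod]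
    refine Finset.prod_congr rfl fun i _ => ?_
    simp
  rw [Polynomial.coeff_map] at h4
  have h5 : |∏ i ∈ Finset.univ.filter (fun i => hA.eigenvalues i ≠ 0), hA.eigenvalues i| =
      |((B.charpoly.coeff d : ℤ) : ℝ)| := by
    have : ((B.charpoly.coeff d : ℤ) : ℝ) = (Int.castRingHom ℝ) (B.charpoly.coeff d) := rfl
    rw [this, h4, Finset.abs_prod, Finset.abs_prod]
    simp only [abs_neg]
  have h6 : B.charpoly.coeff d ≠ 0 := by
    intro h0
    rw [h0, Int.cast_zero, abs_zero, abs_eq_zero, Finset.prod_eq_zero_iff] at h5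
    obtain ⟨i, hi, h7⟩ := h5
    exact (Finset.mem_filter.1 hi).2 h7
  rw [h5, ← Int.cast_abs]
  exact_mod_cast Int.one_le_abs h6

theorem ker_bounds {ι : Type*} [Fintype ι] [DecidableEq ι] (B : Matrix ι ι ℤ)
    (hpsd : (B.map (fun x : ℤ => (x : ℝ))).PosSemidef) (K : ℝ) (hK : 1 ≤ K)
    (hrow : ∀ i, ∑ j, |(B i j : ℝ)| ≤ K) (ε : ℝ) (hε : 0 < ε) (hε1 : ε < 1) (m : ℕ) :
    (Fintype.card ι : ℝ) - (B.map (fun x : ℤ => (x : ℝ))).rank ≤
      Matrix.trace ((1 - K⁻¹ • B.map (fun x : ℤ => (x : ℝ))) ^ m) ∧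
    Matrix.trace ((1 - K⁻¹ • B.map (fun x : ℤ => (x : ℝ))) ^ m) ≤
      (Fintype.card ι : ℝ) - (B.map (fun x : ℤ => (x : ℝ))).rank +
      Fintype.card ι * (Real.log K / Real.log (1 / ε)) + Fintype.card ι * (1 - ε / K) ^ m := by
  classical
  have hA := hpsd.1
  have hK0 : 0 < K := by linarith
  set ev := hA.eigenvalues with hev
  have h0 : ∀ i, 0 ≤ ev i := fun i => hpsd.eigenvalues_nonneg i
  have hle : ∀ i, ev i ≤ K := fun i => Spec_le hA K hrow i
  have hd : (Fintype.card ι : ℝ) - (B.map (fun x : ℤ => (x : ℝ))).rank =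
      ((Finset.univ.filter fun i => ev i = 0).card : ℝ) := by
    rw [hA.rank_eq_card_non_zero_eigs, Fintype.card_subtype]
    have h1 := Finset.card_filter_add_card_filter_not (s := (Finset.univ : Finset ι))
      (fun i => ev i = 0)
    rw [Finset.card_univ] at h1
    have h2 : (((Finset.univ.filter fun i => ev i = 0).card : ℕ) : ℝ) +
        (((Finset.univ.filter fun i => ¬ ev i = 0).card : ℕ) : ℝ) = (Fintype.card ι : ℝ) := by
      exact_mod_cast h1
    have h3 : (Finset.univ.filter fun i => ¬ ev i = 0) =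
        (Finset.univ.filter fun i => ev i ≠ 0) := rfl
    rw [h3] at h2
    linarith
  rw [hd, Spec_trace hA]
  have ht0 : ∀ i, 0 ≤ 1 - K⁻¹ * ev i := by
    intro i
    have : K⁻¹ * ev i ≤ K⁻¹ * K := mul_le_mul_of_nonneg_left (hle i) (by positivity)
    rw [inv_mul_cancel₀ hK0.ne'] at this
    linarith
  have ht1 : ∀ i, 1 - K⁻¹ * ev i ≤ 1 := by
    intro i
    have : 0 ≤ K⁻¹ * ev i := mul_nonneg (by positivity) (h0 i)
    linarith
  set S0 := Finset.univ.filter fun i => ev i = 0 with hS0
  set S1 := Finset.univ.filter fun i => ev i ≠ 0 ∧ ev i < ε with hS1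
  set S2 := Finset.univ.filter fun i => ev i ≠ 0 ∧ ¬ ev i < ε with hS2
  have hsplit : ∀ f : ι → ℝ, ∑ i, f i = ∑ i ∈ S0, f i + (∑ i ∈ S1, f i + ∑ i ∈ S2, f i) := by
    intro f
    rw [← Finset.sum_filter_add_sum_filter_not Finset.univ (fun i => ev i = 0)]
    congr 1
    rw [← Finset.sum_filter_add_sum_filter_not (Finset.univ.filter fun i => ¬ ev i = 0)
      (fun i => ev i < ε), Finset.filter_filter, Finset.filter_filter]
  have hone : ∑ i ∈ S0, (1 - K⁻¹ * ev i) ^ m = (S0.card : ℝ) := by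
    rw [Finset.sum_congr rfl (g := fun _ => (1 : ℝ)), Finset.sum_const, nsmul_eq_mul, mul_one]
    intro i hi
    have : ev i = 0 := (Finset.mem_filter.1 hi).2
    rw [this]
    simp
  have hs1 : ∑ i ∈ S1, (1 - K⁻¹ * ev i) ^ m ≤ (S1.card : ℝ) := by
    calc ∑ i ∈ S1, (1 - K⁻¹ * ev i) ^ m ≤ ∑ i ∈ S1, (1 : ℝ) :=
          Finset.sum_le_sum fun i _ => pow_le_one₀ (ht0 i) (ht1 i)
      _ = (S1.card : ℝ) := by simp
  have hεK : 0 ≤ 1 - ε / K := by
    have : ε / K ≤ 1 := by
      rw [div_le_one hK0]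
      linarith
    linarith
  have hs2 : ∑ i ∈ S2, (1 - K⁻¹ * ev i) ^ m ≤ (Fintype.card ι : ℝ) * (1 - ε / K) ^ m := by
    calc ∑ i ∈ S2, (1 - K⁻¹ * ev i) ^ m ≤ ∑ i ∈ S2, (1 - ε / K) ^ m := by
          refine Finset.sum_le_sum fun i hi => ?_
          have h1 : ¬ ev i < ε := (Finset.mem_filter.1 hi).2.2
          refine pow_le_pow_left₀ (ht0 i) ?_ m
          have h2 : K⁻¹ * ε ≤ K⁻¹ * ev i :=
            mul_le_mul_of_nonneg_left (not_lt.1 h1) (by positivity)
          rw [div_eq_inv_mul]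
          linarith
      _ = (S2.card : ℝ) * (1 - ε / K) ^ m := by rw [Finset.sum_const, nsmul_eq_mul]
      _ ≤ (Fintype.card ι : ℝ) * (1 - ε / K) ^ m := by
          apply mul_le_mul_of_nonneg_right _ (pow_nonneg hεK m)
          exact_mod_cast Finset.card_le_univ S2
  have hlogK : 0 ≤ Real.log K := Real.log_nonneg hK
  have hlogε : 0 < Real.log (1 / ε) := by
    apply Real.log_pos
    rw [lt_div_iff₀ hε]
    linarith
  have hcard : (S1.card : ℝ) ≤ (Fintype.card ι : ℝ) * (Real.log K / Real.log (1 / ε)) := by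
    rw [← mul_div_assoc, le_div_iff₀ hlogε]
    have h1 := Spec_prod B hA
    have hpos : ∀ i, ev i ≠ 0 → 0 < ev i := fun i hi => lt_of_le_of_ne (h0 i) (Ne.symm hi)
    have h2 : 0 ≤ ∑ i ∈ Finset.univ.filter (fun i => ev i ≠ 0), Real.log (ev i) := by
      rw [← Real.log_prod]
      · apply Real.log_nonneg
        rw [abs_of_nonneg (Finset.prod_nonneg fun i _ => h0 i)] at h1
        exact h1
      · intro i hi
        exact (Finset.mem_filter.1 hi).2
    have h3 : ∑ i ∈ Finset.univ.filter (fun i => ev i ≠ 0), Real.log (ev i) =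
        ∑ i ∈ S1, Real.log (ev i) + ∑ i ∈ S2, Real.log (ev i) := by
      rw [← Finset.sum_filter_add_sum_filter_not (Finset.univ.filter fun i => ev i ≠ 0)
        (fun i => ev i < ε), Finset.filter_filter, Finset.filter_filter]
    have h4 : ∑ i ∈ S1, Real.log (ev i) ≤ (S1.card : ℝ) * Real.log ε := by
      calc ∑ i ∈ S1, Real.log (ev i) ≤ ∑ i ∈ S1, Real.log ε := by
            refine Finset.sum_le_sum fun i hi => ?_
            obtain ⟨h5, h6⟩ := (Finset.mem_filter.1 hi).2
            exact Real.log_le_log (hpos i h5) h6.le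
        _ = (S1.card : ℝ) * Real.log ε := by rw [Finset.sum_const, nsmul_eq_mul]
    have h5 : ∑ i ∈ S2, Real.log (ev i) ≤ (Fintype.card ι : ℝ) * Real.log K := by
      calc ∑ i ∈ S2, Real.log (ev i) ≤ ∑ i ∈ S2, Real.log K := by
            refine Finset.sum_le_sum fun i hi => ?_
            exact Real.log_le_log (hpos i (Finset.mem_filter.1 hi).2.1) (hle i)
        _ = (S2.card : ℝ) * Real.log K := by rw [Finset.sum_const, nsmul_eq_mul]
        _ ≤ (Fintype.card ι : ℝ) * Real.log K := by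
            apply mul_le_mul_of_nonneg_right _ hlogK
            exact_mod_cast Finset.card_le_univ S2
    rw [one_div, Real.log_inv]
    linarith
  constructor
  · rw [hsplit, hone]
    have h1 : 0 ≤ ∑ i ∈ S1, (1 - K⁻¹ * ev i) ^ m :=
      Finset.sum_nonneg fun i _ => pow_nonneg (ht0 i) m
    have h2 : 0 ≤ ∑ i ∈ S2, (1 - K⁻¹ * ev i) ^ m :=
      Finset.sum_nonneg fun i _ => pow_nonneg (ht0 i) m
    linarith
  · rw [hsplit, hone]
    linarith

end Pool.Agent.LuA
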