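import Mathlib
import Pool.Agent.CIR.Seqs

/-!
# LuA / Defs

MP_05b873_al, large primes (helper47). Integral matrices over group rings on finite `G`-sets.
-/

namespace Pool.Agent.LuA

open Pool.Agent.CIR

/-- the integer matrix of `A` on the finite `G`-set `X` -/
noncomputable def lev {G : Type*} [Group G] (X : Type*) [MulAction G X] [DecidableEq X] {m n : ℕ}
    (A : Matrix (Fin m) (Fin n) (MonoidAlgebra ℤ G)) : Matrix (Fin m × X) (Fin n × X) ℤ :=
  fun i j => (A i.1 j.1).coeff.sum fun g c => if g • j.2 = i.2 then c else 0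

/-- the reduction of a matrix over the integral group ring to a matrix over a field -/
noncomputable def redM (K : Type*) [Field K] {G : Type*} [Group G] {m n : ℕ}
    (A : Matrix (Fin m) (Fin n) (MonoidAlgebra ℤ G)) :
    Matrix (Fin m) (Fin n) (MonoidAlgebra K G) :=
  A.map (MonoidAlgebra.mapRingHom G (Int.castRingHom K))

/-- the adjoint matrix -/
noncomputable def adj {G : Type*} [Group G] {m n : ℕ}
    (A : Matrix (Fin m) (Fin n) (MonoidAlgebra ℤ G)) :
    Matrix (Fin n) (Fin m) (MonoidAlgebra ℤ G) :=
  fun i j => (A j i).mapDomain fun g => g⁻¹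

/-- a sequence of subgroups which eventually avoids every nontrivial element -/
def Avoids {G : Type*} [Group G] (Δ : ℕ → Subgroup G) : Prop :=
  ∀ g : G, g ≠ 1 → ∀ᶠ k in Filter.atTop, g ∉ Δ k

end Pool.Agent.LuA
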