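import Mathlib
import Pool.Agent.LuA.Defs

/-!
# LuA / Lev : integral matrices over group rings on finite `G`-sets (MP_05b873_al)

Paper proofs.
* `lev_mul`: bilinear in the entries; for single group elements
  `∑_y [g y = x] [h z = y] = [g h z = x]`.
* `lev_adj`: `[g⁻¹ y = x] = [g x = y]`.
* `rank_lev`: the operator `bl ((redM K A).map (permAlg K X))` on functions `Fin n → X → K` has the
  matrix `(lev X A).map (Int.cast)` under `(Fin n → X → K) ≃ (Fin n × X → K)`:
  `perm K X g f x = f (g⁻¹ x) = ∑_y [g y = x] f y`.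
* `trace_lev`: `X = G ⧸ D`, `D` normal: `g x = x` iff `g ∈ D`, so the trace of `lev X C` is
  `[G : D] ∑_i ∑_{g ∈ D} c_ii(g)`, and only `g = 1` contributes if `D` avoids the supports.
* `lev_row_sum`: the sum of the absolute values of a row of `lev X A` is at most
  `∑_j ∑_g |A i j (g)|`.
-/

namespace Pool.Agent.LuA

open Pool.Agent.CIR

variable {G : Type*} [Group G] (X : Type*) [MulAction G X] [Fintype X] [DecidableEq X]

omit [Fintype X] in
private noncomputable def Lev_ev (x y : X) : MonoidAlgebra ℤ G →+ ℤ where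
  toFun a := a.coeff.sum fun g c => if g • y = x then c else 0
  map_zero' := by simp
  map_add' a b := by
    rw [MonoidAlgebra.coeff_add]
    exact Finsupp.sum_add_index' (by simp) (by intros; split_ifs <;> simp)

omit [Fintype X] in
private theorem Lev_single (x y : X) (g : G) (c : ℤ) :
    Lev_ev X x y (MonoidAlgebra.single g c) = if g • y = x then c else 0 := by
  change (MonoidAlgebra.single g c).coeff.sum (fun g c => if g • y = x then c else 0) = _
  rw [MonoidAlgebra.coeff_single, Finsupp.sum_single_index]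
  simp

omit [Fintype X] in
private theorem Lev_apply {m n : ℕ} (A : Matrix (Fin m) (Fin n) (MonoidAlgebra ℤ G))
    (i : Fin m × X) (j : Fin n × X) : lev X A i j = Lev_ev X i.2 j.2 (A i.1 j.1) := rfl

private theorem Lev_ev_mul (x z : X) (a b : MonoidAlgebra ℤ G) :
    Lev_ev X x z (a * b) = ∑ y, Lev_ev X x y a * Lev_ev X y z b := by
  induction a using MonoidAlgebra.induction_linear with
  | zero => simp
  | add a a' ha ha' =>
    rw [add_mul, map_add, ha, ha', ← Finset.sum_add_distrib]
    refine Finset.sum_congr rfl (fun y _ => ?_)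
    rw [map_add, add_mul]
  | single g c =>
    induction b using MonoidAlgebra.induction_linear with
    | zero => simp
    | add b b' hb hb' =>
      rw [mul_add, map_add, hb, hb', ← Finset.sum_add_distrib]
      refine Finset.sum_congr rfl (fun y _ => ?_)
      rw [map_add, mul_add]
    | single h d =>
      rw [MonoidAlgebra.single_mul_single, Lev_single, Finset.sum_eq_single (h • z)]
      · rw [Lev_single, Lev_single, if_pos rfl, mul_smul]
        split_ifs <;> simp
      · intro y _ hy
        rw [Lev_single X y z h d, if_neg (fun h1 => hy h1.symm), mul_zero]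
      · intro h1
        exact absurd (Finset.mem_univ _) h1

theorem lev_mul {l m n : ℕ} (A : Matrix (Fin l) (Fin m) (MonoidAlgebra ℤ G))
    (B : Matrix (Fin m) (Fin n) (MonoidAlgebra ℤ G)) : lev X (A * B) = lev X A * lev X B := by
  ext i j
  rw [Lev_apply, Matrix.mul_apply, Matrix.mul_apply, map_sum, Fintype.sum_prod_type]
  refine Finset.sum_congr rfl (fun k _ => ?_)
  rw [Lev_ev_mul]
  rfl

theorem lev_add {m n : ℕ} (A B : Matrix (Fin m) (Fin n) (MonoidAlgebra ℤ G)) :
    lev X (A + B) = lev X A + lev X B := by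
  ext i j
  rw [Lev_apply, Matrix.add_apply, Matrix.add_apply, map_add]
  rfl

theorem lev_smul {m n : ℕ} (c : ℤ) (A : Matrix (Fin m) (Fin n) (MonoidAlgebra ℤ G)) :
    lev X (c • A) = c • lev X A := by
  ext i j
  rw [Lev_apply, Matrix.smul_apply, Matrix.smul_apply, map_zsmul]
  rfl

theorem lev_one {n : ℕ} : lev X (1 : Matrix (Fin n) (Fin n) (MonoidAlgebra ℤ G)) = 1 := by
  ext i j
  rw [Lev_apply]
  by_cases hij : i.1 = j.1
  · rw [hij, Matrix.one_apply_eq, MonoidAlgebra.one_def, Lev_single, one_smul]
    by_cases hij2 : j.2 = i.2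
    · have : i = j := Prod.ext hij hij2.symm
      rw [this]
      simp
    · have : i ≠ j := fun h => hij2 (by rw [h])
      rw [Matrix.one_apply_ne this, if_neg hij2]
  · have : i ≠ j := fun h => hij (by rw [h])
    rw [Matrix.one_apply_ne this, Matrix.one_apply_ne hij, map_zero]

omit [Fintype X] in
private theorem Lev_inv (x y : X) (a : MonoidAlgebra ℤ G) :
    Lev_ev X x y (a.mapDomain fun g => g⁻¹) = Lev_ev X y x a := by
  induction a using MonoidAlgebra.induction_linear with
  | zero => simp
  | add a a' ha ha' =>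
    rw [MonoidAlgebra.mapDomain_add, map_add, map_add, ha, ha']
  | single g c =>
    rw [MonoidAlgebra.mapDomain_single, Lev_single, Lev_single]
    congr 1
    rw [inv_smul_eq_iff]
    exact propext eq_comm

theorem lev_adj {m n : ℕ} (A : Matrix (Fin m) (Fin n) (MonoidAlgebra ℤ G)) :
    lev X (adj A) = (lev X A).transpose := by
  ext i j
  rw [Lev_apply, Matrix.transpose_apply, Lev_apply]
  exact Lev_inv X _ _ _

private theorem Lev_perm (K : Type*) [Field K] (a : MonoidAlgebra ℤ G) (u : X → K) (x : X) :
    permAlg K X (MonoidAlgebra.mapRingHom G (Int.castRingHom K) a) u x =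
      ∑ y, ((Lev_ev X x y a : ℤ) : K) * u y := by
  induction a using MonoidAlgebra.induction_linear with
  | zero => simp
  | add a a' ha ha' =>
    rw [map_add, map_add, LinearMap.add_apply, Pi.add_apply, ha, ha', ← Finset.sum_add_distrib]
    refine Finset.sum_congr rfl (fun y _ => ?_)
    rw [map_add, Int.cast_add, add_mul]
  | single g c =>
    rw [MonoidAlgebra.mapRingHom_single, permAlg_single, LinearMap.smul_apply, Pi.smul_apply,
      perm_apply, Finset.sum_eq_single (g⁻¹ • x)]
    · rw [Lev_single, if_pos (smul_inv_smul g x)]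
      rfl
    · intro y _ hy
      rw [Lev_single, if_neg, Int.cast_zero, zero_mul]
      intro h1
      exact hy (by rw [← h1, inv_smul_smul])
    · intro h1
      exact absurd (Finset.mem_univ _) h1

theorem rank_lev (K : Type*) [Field K] {m n : ℕ}
    (A : Matrix (Fin m) (Fin n) (MonoidAlgebra ℤ G)) :
    ((lev X A).map (fun x : ℤ => (x : K))).rank = rkX X (redM K A) := by
  unfold rkX rn
  rw [Matrix.rank]
  let e₁ := LinearEquiv.curry K K (Fin n) X
  let e₂ := LinearEquiv.curry K K (Fin m) X
  have hcomm : (bl ((redM K A).map (permAlg K X))) ∘ₗ (e₁ : (Fin n × X → K) →ₗ[K] _) =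
      (e₂ : (Fin m × X → K) →ₗ[K] _) ∘ₗ
        ((lev X A).map (fun x : ℤ => (x : K))).mulVecLin := by
    apply LinearMap.ext
    intro f
    funext i x
    rw [LinearMap.comp_apply, LinearMap.comp_apply, bl_apply, Finset.sum_apply]
    change _ = (((lev X A).map (fun x : ℤ => (x : K))).mulVec f) (i, x)
    rw [Matrix.mulVec, dotProduct, Fintype.sum_prod_type]
    refine Finset.sum_congr rfl (fun j _ => ?_)
    change permAlg K X (MonoidAlgebra.mapRingHom G (Int.castRingHom K) (A i j))
      (fun y => f (j, y)) x = _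
    rw [Lev_perm]
    rfl
  have h1 : LinearMap.range (bl ((redM K A).map (permAlg K X))) =
      (LinearMap.range ((lev X A).map (fun x : ℤ => (x : K))).mulVecLin).map
        (e₂ : (Fin m × X → K) →ₗ[K] _) := by
    rw [← LinearMap.range_comp, ← hcomm, LinearMap.range_comp, LinearEquiv.range,
      LinearMap.range_eq_map]
  rw [h1]
  exact (LinearEquiv.finrank_map_eq e₂ _).symm

theorem exists_row_bound {m n : ℕ} (A : Matrix (Fin m) (Fin n) (MonoidAlgebra ℤ G)) :
    ∃ K : ℝ, 1 ≤ K ∧ ∀ (Y : Type) [MulAction G Y] [Fintype Y] [DecidableEq Y],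
      ∀ i, ∑ j, |(lev Y A i j : ℝ)| ≤ K := by
  refine ⟨1 + ∑ i, ∑ j, ∑ g ∈ (A i j).coeff.support, |((A i j).coeff g : ℝ)|, ?_, ?_⟩
  · have : (0 : ℝ) ≤ ∑ i, ∑ j, ∑ g ∈ (A i j).coeff.support, |((A i j).coeff g : ℝ)| :=
      Finset.sum_nonneg fun i _ => Finset.sum_nonneg fun j _ => Finset.sum_nonneg fun g _ =>
        abs_nonneg _
    linarith
  · intro Y _ _ _ i
    have h1 : ∑ j, |(lev Y A i j : ℝ)| ≤
        ∑ j, ∑ g ∈ (A i.1 j).coeff.support, |((A i.1 j).coeff g : ℝ)| := by
      rw [Fintype.sum_prod_type]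
      refine Finset.sum_le_sum (fun j _ => ?_)
      have h2 : ∀ y : Y, |(lev Y A i (j, y) : ℝ)| ≤ ∑ g ∈ (A i.1 j).coeff.support,
          if g • y = i.2 then |((A i.1 j).coeff g : ℝ)| else 0 := by
        intro y
        have h3 : (lev Y A i (j, y) : ℝ) = ∑ g ∈ (A i.1 j).coeff.support,
            if g • y = i.2 then ((A i.1 j).coeff g : ℝ) else 0 := by
          unfold lev
          rw [Finsupp.sum]
          push_cast
          rfl
        rw [h3]
        refine (Finset.abs_sum_le_sum_abs _ _).trans (Finset.sum_le_sum (fun g _ => ?_))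
        split_ifs <;> simp
      refine (Finset.sum_le_sum (fun y _ => h2 y)).trans ?_
      rw [Finset.sum_comm]
      refine Finset.sum_le_sum (fun g _ => ?_)
      rw [Finset.sum_eq_single (g⁻¹ • i.2)]
      · rw [if_pos (smul_inv_smul g i.2)]
      · intro y _ hy
        rw [if_neg]
        intro h4
        exact hy (by rw [← h4, inv_smul_smul])
      · intro h4
        exact absurd (Finset.mem_univ _) h4
    have h5 : ∑ j, ∑ g ∈ (A i.1 j).coeff.support, |((A i.1 j).coeff g : ℝ)| ≤
        ∑ i, ∑ j, ∑ g ∈ (A i j).coeff.support, |((A i j).coeff g : ℝ)| := by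
      refine Finset.single_le_sum (f := fun i => ∑ j, ∑ g ∈ (A i j).coeff.support,
        |((A i j).coeff g : ℝ)|) (fun i _ => ?_) (Finset.mem_univ i.1)
      exact Finset.sum_nonneg fun j _ => Finset.sum_nonneg fun g _ => abs_nonneg _
    linarith

/-- the traces stabilise along a sequence of normal subgroups avoiding all nontrivial elements -/
theorem trace_lev {n : ℕ} (C : Matrix (Fin n) (Fin n) (MonoidAlgebra ℤ G)) (D : Subgroup G)
    (hD : D.Normal) [Fintype (G ⧸ D)] [DecidableEq (G ⧸ D)]
    (h : ∀ i, ∀ g ∈ (C i i).coeff.support, g ≠ 1 → g ∉ D) :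
    Matrix.trace (lev (G ⧸ D) C) = D.index * ∑ i, (C i i).coeff 1 := by
  have hfix : ∀ (g : G) (x : G ⧸ D), g • x = x → g ∈ D := by
    intro g x hx
    induction x using QuotientGroup.induction_on with
    | H k =>
      have h3 : ((g * k : G) : G ⧸ D) = ((k : G) : G ⧸ D) := hx
      have h4 := (QuotientGroup.eq.1 h3.symm)
      have h5 := hD.conj_mem _ h4 k
      have h6 : k * (k⁻¹ * (g * k)) * k⁻¹ = g := by group
      rwa [h6] at h5
  have hentry : ∀ (i : Fin n) (x : G ⧸ D), lev (G ⧸ D) C (i, x) (i, x) = (C i i).coeff 1 := by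
    intro i x
    change ((C i i).coeff.sum fun g c => if g • x = x then c else 0) = _
    rw [Finsupp.sum]
    by_cases h1 : (1 : G) ∈ (C i i).coeff.support
    · rw [Finset.sum_eq_single_of_mem 1 h1]
      · rw [if_pos (one_smul G x)]
      · intro g hg hg1
        rw [if_neg]
        intro h2
        exact h i g hg hg1 (hfix g x h2)
    · rw [Finsupp.notMem_support_iff.1 h1]
      refine Finset.sum_eq_zero (fun g hg => ?_)
      have hg1 : g ≠ 1 := fun h2 => h1 (h2 ▸ hg)
      rw [if_neg]
      intro h2
      exact h i g hg hg1 (hfix g x h2)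
  rw [Matrix.trace, Fintype.sum_prod_type]
  simp only [Matrix.diag_apply, hentry]
  rw [Finset.mul_sum]
  refine Finset.sum_congr rfl (fun i _ => ?_)
  rw [Finset.sum_const, Finset.card_univ, nsmul_eq_mul, Subgroup.index_eq_card,
    Nat.card_eq_fintype_card]

end Pool.Agent.LuA
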