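import Mathlib
import Pool.Agent.LuA.Spec
import Pool.Agent.LuA.Lev

/-!
# LuA / Luck : approximation theorem in characteristic zero (MP_05b873_al)

Paper proof (Lueck). Let `B = adj A * A` (size `n × n`) and `B_k = lev (G ⧸ Δ k) B`, which is
`(lev A)ᵀ (lev A)` (`lev_mul`, `lev_adj`), positive semidefinite with rank equal to the rank of
`lev (G ⧸ Δ k) A` over the reals (`Matrix.rank_transpose_mul_self`; the rank over the rationals and
over the reals agree, `Matrix.rank_map` for field extensions or compare with minors). Take `K ≥ 1`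
from `exists_row_bound` for `B`; we may take `K` a natural number, so that
`K ^ m (1 - B / K) ^ m = (K - B) ^ m` is an integral matrix over the group ring. Let
`t_m = K ^ (-m) ∑_i ((K - B) ^ m)_ii (1)`. For fixed `m` and large `k` the trace of
`(1 - B_k / K) ^ m` is `[G : Δ k] t_m` (`trace_lev`, `Avoids` for the finitely many group elements in
the supports). By `ker_bounds`, with `d_k = n - (rank of A at level k) / [G : Δ k]`:
`d_k ≤ t_m ≤ d_k + n log K / log (1 / ε) + n (1 - ε / K) ^ m` for large `k`. Hence `t_m` is bounded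
below, the limit is `L = n - inf_m t_m`: given `η > 0` choose `ε` with `n log K / log (1/ε) < η`, then
`m` with `n (1 - ε / K) ^ m < η` and `t_m < inf + η`. The number `L` depends on `A` only. (If there
is no sequence `Δ` as in the statement, there is nothing to prove; `inf_m t_m` may be defined as the
infimum in any case.)
-/

namespace Pool.Agent.LuA

open Pool.Agent.CIR Filter Topology

theorem rank_map_sq {K L : Type*} [Field K] [Field L] (f : K →+* L) {ι : Type*} [Fintype ι]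
    [DecidableEq ι] (M : Matrix ι ι K) : (M.map f).rank = M.rank := by
  classical
  obtain ⟨L1, L2, D, h⟩ := Matrix.Pivot.exists_list_transvec_mul_mul_list_transvec_eq_diagonal M
  set U := (L1.map Matrix.TransvectionStruct.toMatrix).prod with hU
  set V := (L2.map Matrix.TransvectionStruct.toMatrix).prod with hV
  have hdU : U.det = 1 := Matrix.TransvectionStruct.det_toMatrix_prod L1
  have hdV : V.det = 1 := Matrix.TransvectionStruct.det_toMatrix_prod L2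
  have h1 : (U * M * V).rank = M.rank := by
    rw [Matrix.rank_mul_eq_left_of_isUnit_det, Matrix.rank_mul_eq_right_of_isUnit_det]
    · rw [hdU]; exact isUnit_one
    · rw [hdV]; exact isUnit_one
  have h2 : ((U * M * V).map f).rank = (M.map f).rank := by
    rw [Matrix.map_mul, Matrix.map_mul, Matrix.rank_mul_eq_left_of_isUnit_det,
      Matrix.rank_mul_eq_right_of_isUnit_det]
    · have : (U.map f).det = f U.det := by rw [RingHom.map_det]; rfl
      rw [this, hdU, map_one]; exact isUnit_one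
    · have : (V.map f).det = f V.det := by rw [RingHom.map_det]; rfl
      rw [this, hdV, map_one]; exact isUnit_one
  rw [← h2, ← h1, h, Matrix.diagonal_map (map_zero f), Matrix.rank_diagonal, Matrix.rank_diagonal]
  apply Fintype.card_congr
  refine Equiv.subtypeEquivRight ?_
  intro i
  simp

variable {G : Type} [Group G]

theorem lev_pow' (X : Type*) [MulAction G X] [Fintype X] [DecidableEq X] {n : ℕ}
    (C : Matrix (Fin n) (Fin n) (MonoidAlgebra ℤ G)) (m : ℕ) :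
    lev X (C ^ m) = (lev X C) ^ m := by
  induction m with
  | zero => rw [pow_zero, pow_zero, lev_one]
  | succ k ih => rw [pow_succ, pow_succ, lev_mul, ih]

/-- the matrix `K - B` -/
noncomputable def CC {n : ℕ} (B : Matrix (Fin n) (Fin n) (MonoidAlgebra ℤ G)) (K : ℕ) :
    Matrix (Fin n) (Fin n) (MonoidAlgebra ℤ G) :=
  (K : ℤ) • (1 : Matrix (Fin n) (Fin n) (MonoidAlgebra ℤ G)) + (-1 : ℤ) • B

/-- trace of powers -/
theorem tr_eq {n : ℕ} (B : Matrix (Fin n) (Fin n) (MonoidAlgebra ℤ G)) (K : ℕ) (hK : 1 ≤ K)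
    (m : ℕ) (D : Subgroup G) (hD : D.Normal) [Fintype (G ⧸ D)] [DecidableEq (G ⧸ D)]
    (h : ∀ i, ∀ g ∈ ((CC B K ^ m) i i).coeff.support, g ≠ 1 → g ∉ D) :
    Matrix.trace ((1 - (K : ℝ)⁻¹ • (lev (G ⧸ D) B).map (fun x : ℤ => (x : ℝ))) ^ m) =
      D.index * (((K : ℝ) ^ m)⁻¹ * ((∑ i, ((CC B K ^ m) i i).coeff 1 : ℤ) : ℝ)) := by
  have h0 := trace_lev (CC B K ^ m) D hD h
  rw [lev_pow', CC, lev_add, lev_smul, lev_smul, lev_one] at h0
  have hK0 : (K : ℝ) ≠ 0 := by positivity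
  set M := lev (G ⧸ D) B with hM
  have h1 : (1 - (K : ℝ)⁻¹ • M.map (fun x : ℤ => (x : ℝ))) =
      (K : ℝ)⁻¹ • (((K : ℤ) • (1 : Matrix (Fin n × (G ⧸ D)) (Fin n × (G ⧸ D)) ℤ) +
        (-1 : ℤ) • M).map (fun x : ℤ => (x : ℝ))) := by
    ext i j
    simp only [Matrix.sub_apply, Matrix.smul_apply, Matrix.map_apply, Matrix.add_apply,
      smul_eq_mul, Matrix.one_apply]
    split_ifs <;> push_cast <;> field_simp <;> ring
  rw [h1, smul_pow, Matrix.trace_smul]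
  have h2 : ((((K : ℤ) • (1 : Matrix (Fin n × (G ⧸ D)) (Fin n × (G ⧸ D)) ℤ) +
        (-1 : ℤ) • M).map (fun x : ℤ => (x : ℝ))) ^ m) =
      (((((K : ℤ) • (1 : Matrix (Fin n × (G ⧸ D)) (Fin n × (G ⧸ D)) ℤ) +
        (-1 : ℤ) • M)) ^ m).map (fun x : ℤ => (x : ℝ))) := by
    have := (map_pow (RingHom.mapMatrix (Int.castRingHom ℝ)) ((K : ℤ) • (1 : Matrix (Fin n × (G ⧸ D)) (Fin n × (G ⧸ D)) ℤ) +
        (-1 : ℤ) • M) m).symm
    exact this
  rw [h2]
  have h3 : Matrix.trace (((((K : ℤ) • (1 : Matrix (Fin n × (G ⧸ D)) (Fin n × (G ⧸ D)) ℤ) +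
        (-1 : ℤ) • M)) ^ m).map (fun x : ℤ => (x : ℝ))) =
      ((Matrix.trace ((((K : ℤ) • (1 : Matrix (Fin n × (G ⧸ D)) (Fin n × (G ⧸ D)) ℤ) +
        (-1 : ℤ) • M)) ^ m) : ℤ) : ℝ) := by
    unfold Matrix.trace
    rw [Int.cast_sum]
    rfl
  rw [h3, h0, smul_eq_mul, inv_pow, Int.cast_mul, CC]
  push_cast
  ring

/-- the traces -/
noncomputable def tt {n : ℕ} (B : Matrix (Fin n) (Fin n) (MonoidAlgebra ℤ G)) (K m : ℕ) : ℝ :=
  ((K : ℝ) ^ m)⁻¹ * ((∑ i, ((CC B K ^ m) i i).coeff 1 : ℤ) : ℝ)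

/-- bounds at finite level -/
theorem level_bounds {m n : ℕ} (A : Matrix (Fin m) (Fin n) (MonoidAlgebra ℤ G)) :
    ∃ K : ℕ, 1 ≤ K ∧ ∀ Δ : ℕ → Subgroup G, (∀ k, (Δ k).Normal) → (∀ k, (Δ k).FiniteIndex) →
      Avoids Δ → ∀ q : ℕ, ∀ ε : ℝ, 0 < ε → ε < 1 → ∀ᶠ k in atTop,
        0 ≤ (n : ℝ) - nrk (redM ℚ A) (Δ k) ∧
        (n : ℝ) - nrk (redM ℚ A) (Δ k) ≤ tt (adj A * A) K q ∧
        tt (adj A * A) K q ≤ (n : ℝ) - nrk (redM ℚ A) (Δ k) +
          n * (Real.log K / Real.log (1 / ε)) + n * (1 - ε / K) ^ q := by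
  classical
  obtain ⟨K0, hK0, hrow⟩ := exists_row_bound (adj A * A)
  have hKK : K0 ≤ ((⌈K0⌉₊ : ℕ) : ℝ) := Nat.le_ceil K0
  have hK1 : 1 ≤ ⌈K0⌉₊ := by
    have : (1 : ℝ) ≤ ((⌈K0⌉₊ : ℕ) : ℝ) := le_trans hK0 hKK
    exact_mod_cast this
  refine ⟨⌈K0⌉₊, hK1, ?_⟩
  intro Δ hn hf hav q ε hε hε1
  have hev : ∀ᶠ k in atTop, ∀ i, ∀ g ∈ (((CC (adj A * A) ⌈K0⌉₊) ^ q) i i).coeff.support,
      g ≠ 1 → g ∉ Δ k := by
    rw [eventually_all]
    intro i
    rw [Filter.eventually_all_finset]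
    intro g _
    by_cases hg : g = 1
    · exact Filter.Eventually.of_forall (fun k h => absurd hg h)
    · filter_upwards [hav g hg] with k hk _
      exact hk
  filter_upwards [hev] with k hk
  let _ : Fintype (G ⧸ Δ k) := Fintype.ofFinite _
  have hDn := hn k
  have hfi := hf k
  have hcard : (Fintype.card (G ⧸ Δ k)) = (Δ k).index := by
    rw [Subgroup.index_eq_card, Nat.card_eq_fintype_card]
  have hpos : 0 < (Δ k).index := Nat.pos_of_ne_zero hfi.index_ne_zero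
  have hposR : (0 : ℝ) < (Δ k).index := by exact_mod_cast hpos
  have htr := tr_eq (adj A * A) ⌈K0⌉₊ hK1 q (Δ k) hDn hk
  have hB : lev (G ⧸ Δ k) (adj A * A) = (lev (G ⧸ Δ k) A).transpose * lev (G ⧸ Δ k) A := by
    rw [lev_mul, lev_adj]
  have hBR : (lev (G ⧸ Δ k) (adj A * A)).map (fun x : ℤ => (x : ℝ)) =
      ((lev (G ⧸ Δ k) A).map (fun x : ℤ => (x : ℝ))).transpose * (lev (G ⧸ Δ k) A).map (fun x : ℤ => (x : ℝ)) := by
    rw [hB]
    have := Matrix.map_mul (L := (lev (G ⧸ Δ k) A).transpose) (M := lev (G ⧸ Δ k) A) (f := Int.castRingHom ℝ)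
    exact this
  have hpsd : ((lev (G ⧸ Δ k) (adj A * A)).map (fun x : ℤ => (x : ℝ))).PosSemidef := by
    rw [hBR]
    have := Matrix.posSemidef_conjTranspose_mul_self ((lev (G ⧸ Δ k) A).map (fun x : ℤ => (x : ℝ)))
    rwa [Matrix.conjTranspose_eq_transpose_of_trivial] at this
  have hrk : ((lev (G ⧸ Δ k) (adj A * A)).map (fun x : ℤ => (x : ℝ))).rank = rkX (G ⧸ Δ k) (redM ℚ A) := by
    have e1 : (lev (G ⧸ Δ k) (adj A * A)).map (fun x : ℤ => (x : ℝ)) =
        ((lev (G ⧸ Δ k) (adj A * A)).map (fun x : ℤ => (x : ℚ))).map (Rat.castHom ℝ) := by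
      ext i j
      simp
    rw [e1, rank_map_sq]
    have e2 : (lev (G ⧸ Δ k) (adj A * A)).map (fun x : ℤ => (x : ℚ)) =
      ((lev (G ⧸ Δ k) A).map (fun x : ℤ => (x : ℚ))).transpose * (lev (G ⧸ Δ k) A).map (fun x : ℤ => (x : ℚ)) := by
      rw [hB]
      have := Matrix.map_mul (L := (lev (G ⧸ Δ k) A).transpose) (M := lev (G ⧸ Δ k) A) (f := Int.castRingHom ℚ)
      exact this
    rw [e2, Matrix.rank_transpose_mul_self, rank_lev]
  have hrowK : ∀ i, ∑ j, |(lev (G ⧸ Δ k) (adj A * A) i j : ℝ)| ≤ ((⌈K0⌉₊ : ℕ) : ℝ) :=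
    fun i => le_trans (hrow (G ⧸ Δ k) i) hKK
  have hb := ker_bounds (lev (G ⧸ Δ k) (adj A * A)) hpsd ((⌈K0⌉₊ : ℕ) : ℝ) (by exact_mod_cast hK1)
    hrowK ε hε hε1 q
  rw [htr, hrk, Fintype.card_prod, Fintype.card_fin, hcard] at hb
  have hle : rkX (G ⧸ Δ k) (redM ℚ A) ≤ n * (Δ k).index := by
    rw [← hrk]
    refine le_trans (Matrix.rank_le_card_width _) ?_
    rw [Fintype.card_prod, Fintype.card_fin, hcard]
  have hnrk : nrk (redM ℚ A) (Δ k) = (rkX (G ⧸ Δ k) (redM ℚ A) : ℝ) / (Δ k).index := rfl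
  have hleR : (rkX (G ⧸ Δ k) (redM ℚ A) : ℝ) ≤ n * (Δ k).index := by exact_mod_cast hle
  obtain ⟨hb1, hb2⟩ := hb
  push_cast at hb1 hb2
  have hr : (rkX (G ⧸ Δ k) (redM ℚ A) : ℝ) = nrk (redM ℚ A) (Δ k) * (Δ k).index := by
    rw [hnrk]; field_simp
  rw [hr] at hb1 hb2 hleR
  have htt : tt (adj A * A) ⌈K0⌉₊ q = ((((⌈K0⌉₊ : ℕ) : ℝ)) ^ q)⁻¹ *
      ((∑ i, ((CC (adj A * A) ⌈K0⌉₊ ^ q) i i).coeff 1 : ℤ) : ℝ) := rfl
  push_cast at htt
  rw [← htt] at hb1 hb2
  refine ⟨?_, ?_, ?_⟩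
  · have := le_of_mul_le_mul_right hleR hposR
    linarith
  · refine le_of_mul_le_mul_left ?_ hposR
    linarith
  · refine le_of_mul_le_mul_left ?_ hposR
    linarith

/-- for every field of characteristic zero; we use the rationals -/
theorem exists_luck {G : Type} [Group G] {m n : ℕ}
    (A : Matrix (Fin m) (Fin n) (MonoidAlgebra ℤ G)) :
    ∃ L : ℝ, ∀ Δ : ℕ → Subgroup G, (∀ k, (Δ k).Normal) → (∀ k, (Δ k).FiniteIndex) → Avoids Δ →
      Tendsto (fun k => nrk (redM ℚ A) (Δ k)) atTop (𝓝 L) := by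
  obtain ⟨K, hK, hb⟩ := level_bounds A
  refine ⟨(n : ℝ) - ⨅ q, tt (adj A * A) K q, ?_⟩
  intro Δ hn hf hav
  have hbd : BddBelow (Set.range (fun q => tt (adj A * A) K q)) := by
    refine ⟨0, ?_⟩
    rintro _ ⟨q, rfl⟩
    obtain ⟨k, hk1, hk2, _⟩ := (hb Δ hn hf hav q (1 / 2) (by norm_num) (by norm_num)).exists
    exact le_trans hk1 hk2
  have hKR : (1 : ℝ) ≤ K := by exact_mod_cast hK
  rw [Metric.tendsto_atTop']
  intro η hη
  -- choice of epsilon
  have hlim : Tendsto (fun ε : ℝ => (n : ℝ) * (Real.log K / Real.log (1 / ε))) (𝓝[>] 0) (𝓝 0) := by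
    have h1 : Tendsto (fun ε : ℝ => Real.log (1 / ε)) (𝓝[>] 0) atTop := by
      have : Tendsto (fun ε : ℝ => ε⁻¹) (𝓝[>] 0) atTop := tendsto_inv_nhdsGT_zero
      have h2 := Real.tendsto_log_atTop.comp this
      refine h2.congr (fun ε => ?_)
      simp
    have h2 := (tendsto_const_nhds (x := Real.log K)).div_atTop h1
    have h3 := h2.const_mul (n : ℝ)
    simpa using h3
  obtain ⟨ε, hε1, hε2, hε3⟩ : ∃ ε : ℝ, (n : ℝ) * (Real.log K / Real.log (1 / ε)) < η / 2 ∧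
      0 < ε ∧ ε < 1 := by
    have e1 : ∀ᶠ ε in 𝓝[>] (0 : ℝ), (n : ℝ) * (Real.log K / Real.log (1 / ε)) < η / 2 :=
      hlim.eventually (gt_mem_nhds (by linarith))
    have e2 : ∀ᶠ ε in 𝓝[>] (0 : ℝ), 0 < ε := eventually_mem_nhdsWithin
    have e3 : ∀ᶠ ε in 𝓝[>] (0 : ℝ), ε < 1 :=
      mem_nhdsWithin_of_mem_nhds (gt_mem_nhds one_pos)
    exact (e1.and (e2.and e3)).exists
  -- choice of the exponent for the lower bound
  have hpow : Tendsto (fun q : ℕ => (n : ℝ) * (1 - ε / K) ^ q) atTop (𝓝 0) := by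
    have h1 : 0 ≤ 1 - ε / K := by
      have : ε / K ≤ 1 := by
        rw [div_le_one (by linarith)]
        linarith
      linarith
    have h2 : 1 - ε / K < 1 := by
      have : 0 < ε / K := by positivity
      linarith
    have h3 := (tendsto_pow_atTop_nhds_zero_of_lt_one h1 h2).const_mul (n : ℝ)
    simpa using h3
  obtain ⟨q1, hq1⟩ := (hpow.eventually (gt_mem_nhds (show (0 : ℝ) < η / 2 by linarith))).exists
  -- choice of the exponent for the upper bound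
  obtain ⟨q2, hq2⟩ := exists_lt_of_ciInf_lt
    (show ⨅ q, tt (adj A * A) K q < (⨅ q, tt (adj A * A) K q) + η by linarith)
  have hev := (hb Δ hn hf hav q1 ε hε2 hε3).and (hb Δ hn hf hav q2 ε hε2 hε3)
  obtain ⟨N, hN⟩ := eventually_atTop.1 hev
  refine ⟨N, fun k hk => ?_⟩
  obtain ⟨⟨h1, h2, h3⟩, ⟨h4, h5, h6⟩⟩ := hN k (le_of_lt hk)
  have h7 : (⨅ q, tt (adj A * A) K q) ≤ tt (adj A * A) K q1 := ciInf_le hbd q1
  rw [Real.dist_eq, abs_lt]
  constructor <;> linarith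

end Pool.Agent.LuA
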