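import Mathlib
import Pool.Agent.LuA.Luck
import Pool.Agent.LuA.Det
import Pool.Agent.IWA.GLTow
import Pool.Agent.IWA.RkTheta
import Pool.Agent.IWA.HatHom
import Pool.Agent.IWA.Inst
import Pool.Agent.CIR.RokSeq

/-!
# LuA / Large : independence of the `p`-adic analytic chain for all large primes (MP_05b873_al)

Paper proof. `nrk_sub_le`: `rank_sub_le` for `lev (G ⧸ D) A`, `rank_lev` for `ℚ` and `ZMod p`
(the rank over `ℚ` is at most `n [G : D]`). `exists_lim`: `exists_good_Zp`, `exists_GLTower` with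
`e = 1` (`p ≥ 3`), `exists_rank` for `(redM (ZMod p) A).map (hatHom T a)`, `a` the homomorphism from
`G` to `cg ℤ_p N p 1` given by `ρ`, and `nrk_tower`. `exists_large`: let `L` be from `exists_luck`
and `C = n log K` from `nrk_sub_le`. For every injective `ρ` the sequence
`Δ k = ρ⁻¹ (cg ℤ_p N p (k + 1))` consists of normal finite index subgroups and avoids every
nontrivial element (the intersection of the `cg ℤ_p N p k` is trivial), so
`nrk (redM ℚ A) (Δ k) → L` and `nrk (redM (ZMod p) A) (Δ k) → r ∈ ℕ` with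
`L - C / log p ≤ r ≤ L`. If `C / log p < 1` this forces `r = ⌊L⌋` (floor), which does not depend on
`p`, `N`, `ρ` (`unique_int`: the same argument for every sequence for which the limit is an
integer; take `r = ⌊L⌋₊`). For Rokhlin sequences the limit is an integer by `tendsto_nrk_all`.
-/

namespace Pool.Agent.LuA

open Pool.Agent.CIR Pool.Agent.IWA Filter Topology

theorem exists_nrk_sub_le {G : Type} [Group G] {m n : ℕ}
    (A : Matrix (Fin m) (Fin n) (MonoidAlgebra ℤ G)) :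
    ∃ C : ℝ, ∀ (p : ℕ) [Fact p.Prime] (D : Subgroup G), D.FiniteIndex →
      nrk (redM (ZMod p) A) D ≤ nrk (redM ℚ A) D ∧
      nrk (redM ℚ A) D - C / Real.log p ≤ nrk (redM (ZMod p) A) D := by
  classical
  obtain ⟨K, hK, hrow⟩ := exists_row_bound A
  refine ⟨n * Real.log K, fun p _ D hD => ?_⟩
  let _ : Fintype (G ⧸ D) := Fintype.ofFinite _
  have hp : p.Prime := Fact.out
  have hlp : 0 < Real.log p := Real.log_pos (by exact_mod_cast hp.one_lt)
  have hlK : 0 ≤ Real.log K := Real.log_nonneg hK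
  have hind : 0 < (D.index : ℝ) := by
    exact_mod_cast Nat.pos_of_ne_zero hD.index_ne_zero
  have hcard : (Fintype.card (G ⧸ D) : ℝ) = D.index := by
    rw [Subgroup.index_eq_card, Nat.card_eq_fintype_card]
  have hQ := rank_lev (X := G ⧸ D) ℚ A
  have hZ := rank_lev (X := G ⧸ D) (ZMod p) A
  have h1 := rank_mod_le (lev (G ⧸ D) A) p
  have h2 := rank_sub_le (lev (G ⧸ D) A) p K hK (hrow (G ⧸ D))
  have h3 := Matrix.rank_le_card_width ((lev (G ⧸ D) A).map (fun x : ℤ => (x : ℚ)))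
  rw [hQ] at h1 h2 h3
  rw [hZ] at h1 h2
  rw [Fintype.card_prod, Fintype.card_fin] at h3
  have h4 : (rkX (G ⧸ D) (redM ℚ A) : ℝ) ≤ n * D.index := by
    rw [← hcard]
    exact_mod_cast h3
  unfold nrk
  constructor
  · have h5 : (rkX (G ⧸ D) (redM (ZMod p) A) : ℝ) ≤ rkX (G ⧸ D) (redM ℚ A) := by
      exact_mod_cast h1
    gcongr
  · rw [sub_le_iff_le_add, div_add_div _ _ hind.ne' hlp.ne', div_le_div_iff₀ hind (by positivity)]
    have h6 : (rkX (G ⧸ D) (redM ℚ A) : ℝ) * Real.log K ≤ n * D.index * Real.log K :=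
      mul_le_mul_of_nonneg_right h4 hlK
    nlinarith

private theorem Large_mono {R : Type} [CommRing R] {N p i j : ℕ} (h : i ≤ j) :
    cg R N p j ≤ cg R N p i := by
  rintro u ⟨a, ha⟩
  obtain ⟨d, rfl⟩ := Nat.exists_eq_add_of_le h
  refine ⟨((p : R) ^ d) • a, ?_⟩
  rw [ha, smul_smul, pow_add]

private theorem Large_normal {R : Type} [CommRing R] {N p : ℕ} (i : ℕ) :
    (cg R N p i).Normal := by
  constructor
  rintro u ⟨a, ha⟩ v
  refine ⟨(v : Matrix (Fin N) (Fin N) R) * a * (v⁻¹ : (Matrix (Fin N) (Fin N) R)ˣ), ?_⟩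
  rw [Units.val_mul, Units.val_mul, ha, mul_add, mul_one, add_mul, Units.mul_inv,
    Matrix.mul_smul, Matrix.smul_mul]

/-- the tower of `ℤ_p` pulled back to `G` -/
private theorem Large_tower {G : Type} [Group G] (p : ℕ) [Fact p.Prime] (hp : 3 ≤ p) {N : ℕ}
    (hN : 0 < N) (ρ : G →* (Matrix (Fin N) (Fin N) ℤ_[p])ˣ) (h1 : ∀ g, ρ g ∈ cg ℤ_[p] N p 1) :
    ∃ (T : UTower p 1 (Fin 1 × Fin N × Fin N) (cg ℤ_[p] N p 1)) (a : G →* cg ℤ_[p] N p 1),
      ∀ J g, g ∈ (cg ℤ_[p] N p (J + 1)).comap ρ ↔ a g ∈ T.L J := by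
  obtain ⟨Gd, -⟩ := exists_good_Zp p
  obtain ⟨W⟩ := exists_GLTower Gd N 1 (by rwa [pow_one]) le_rfl one_pos hN
  refine ⟨W.T, ρ.codRestrict _ h1, fun J g => ?_⟩
  rw [W.hL, Subgroup.mem_subgroupOf, Subgroup.mem_comap, add_comm 1 J]
  rfl

theorem exists_lim {G : Type} [Group G] (p : ℕ) [Fact p.Prime] (hp : 3 ≤ p) {N : ℕ} (hN : 0 < N)
    (ρ : G →* (Matrix (Fin N) (Fin N) ℤ_[p])ˣ) (h1 : ∀ g, ρ g ∈ cg ℤ_[p] N p 1) {m n : ℕ}
    (A : Matrix (Fin m) (Fin n) (MonoidAlgebra (ZMod p) G)) :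
    ∃ r : ℕ, Tendsto (fun k => nrk A ((cg ℤ_[p] N p k).comap ρ)) atTop (𝓝 r) := by
  obtain ⟨T, a, ha⟩ := Large_tower p hp hN ρ h1
  obtain ⟨r, hr⟩ := exists_rank T (A.map (hatHom T a))
  refine ⟨r, ?_⟩
  rw [← tendsto_add_atTop_iff_nat 1]
  refine hr.congr fun J => ?_
  exact (nrk_tower T a J _ (ha J) A).symm

theorem unique_int {G : Type} [Group G] {m n : ℕ}
    (A : Matrix (Fin m) (Fin n) (MonoidAlgebra ℤ G)) :
    ∃ (r p₀ : ℕ), ∀ (p : ℕ) [Fact p.Prime], p₀ ≤ p → ∀ Δ : ℕ → Subgroup G,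
      (∀ k, (Δ k).Normal) → (∀ k, (Δ k).FiniteIndex) → Avoids Δ → ∀ s : ℕ,
      Tendsto (fun k => nrk (redM (ZMod p) A) (Δ k)) atTop (𝓝 (s : ℝ)) → s = r := by
  obtain ⟨L, hL⟩ := exists_luck A
  obtain ⟨C, hC⟩ := exists_nrk_sub_le A
  refine ⟨⌊L⌋₊, ⌈Real.exp C⌉₊ + 1, fun p _ hp Δ hn hf hav s hs => ?_⟩
  have hLt := hL Δ hn hf hav
  have hpr : p.Prime := Fact.out
  have hlp : 0 < Real.log p := Real.log_pos (by exact_mod_cast hpr.one_lt)
  have h1 : (s : ℝ) ≤ L := le_of_tendsto_of_tendsto' hs hLt fun k => (hC p (Δ k) (hf k)).1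
  have h2 : L - C / Real.log p ≤ s :=
    le_of_tendsto_of_tendsto' (hLt.sub_const _) hs fun k => (hC p (Δ k) (hf k)).2
  have h3 : C < Real.log p := by
    rw [Real.lt_log_iff_exp_lt (by exact_mod_cast hpr.pos)]
    have h4 : Real.exp C ≤ ⌈Real.exp C⌉₊ := Nat.le_ceil _
    have h5 : ((⌈Real.exp C⌉₊ + 1 : ℕ) : ℝ) ≤ p := by exact_mod_cast hp
    push_cast at h5
    linarith
  have h4 : C / Real.log p < 1 := by rwa [div_lt_one hlp]
  have h5 : L < s + 1 := by linarith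
  exact ((Nat.floor_eq_iff ((Nat.cast_nonneg s).trans h1)).2 ⟨h1, h5⟩).symm

theorem exists_large {G : Type} [Group G] {m n : ℕ}
    (A : Matrix (Fin m) (Fin n) (MonoidAlgebra ℤ G)) :
    ∃ (r p₀ : ℕ), ∀ (p : ℕ) [Fact p.Prime], p₀ ≤ p →
      (∀ (N : ℕ), 0 < N → ∀ ρ : G →* (Matrix (Fin N) (Fin N) ℤ_[p])ˣ, Function.Injective ρ →
        (∀ g, ρ g ∈ cg ℤ_[p] N p 1) →
        Tendsto (fun k => nrk (redM (ZMod p) A) ((cg ℤ_[p] N p k).comap ρ)) atTop (𝓝 (r : ℝ))) ∧
      (∀ Δ : ℕ → Subgroup G, (∀ k, (Δ k).Normal) → (∀ k, (Δ k).FiniteIndex) → Avoids Δ →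
        RokSeq Δ → Tendsto (fun k => nrk (redM (ZMod p) A) (Δ k)) atTop (𝓝 (r : ℝ))) := by
  obtain ⟨r, p₀, h⟩ := unique_int A
  refine ⟨r, max p₀ 3, fun p _ hp => ⟨?_, ?_⟩⟩
  · intro N hN ρ hρ h1
    have hp3 : 3 ≤ p := (le_max_right _ _).trans hp
    obtain ⟨s, hs⟩ := exists_lim p hp3 hN ρ h1 (redM (ZMod p) A)
    have hsr : s = r := by
      refine h p ((le_max_left _ _).trans hp) (fun k => (cg ℤ_[p] N p k).comap ρ) ?_ ?_ ?_ s hs
      · intro k
        have := Large_normal (R := ℤ_[p]) (N := N) (p := p) k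
        exact Subgroup.Normal.comap this ρ
      · intro k
        obtain ⟨T, a, ha⟩ := Large_tower p hp3 hN ρ h1
        have h2 : (cg ℤ_[p] N p (k + 1)).comap ρ = (T.L k).comap a := by
          ext g
          rw [ha k g, Subgroup.mem_comap]
        have h3 : (T.L k).FiniteIndex := ⟨by
          rw [T.index]
          exact pow_ne_zero _ (Fact.out : p.Prime).ne_zero⟩
        have h4 : ((cg ℤ_[p] N p (k + 1)).comap ρ).FiniteIndex := by
          rw [h2]
          refine ⟨?_⟩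
          rw [Subgroup.index_comap]
          exact ne_zero_of_dvd_ne_zero h3.index_ne_zero
            (Subgroup.relIndex_dvd_index_of_normal (T.L k) a.range)
        exact Subgroup.finiteIndex_of_le (Subgroup.comap_mono (Large_mono (Nat.le_succ k)))
      · intro g hg
        have h2 : ρ g ≠ 1 := fun h3 => hg (hρ (h3.trans (map_one ρ).symm))
        have h3 : ((ρ g : (Matrix (Fin N) (Fin N) ℤ_[p])ˣ) : Matrix (Fin N) (Fin N) ℤ_[p]) -
            1 ≠ 0 := by
          intro h4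
          apply h2
          apply Units.ext
          rw [Units.val_one]
          exact sub_eq_zero.1 h4
        obtain ⟨i, j, hij⟩ : ∃ i j, (((ρ g : (Matrix (Fin N) (Fin N) ℤ_[p])ˣ) :
            Matrix (Fin N) (Fin N) ℤ_[p]) - 1) i j ≠ 0 := by
          by_contra h4
          push Not at h4
          exact h3 (Matrix.ext h4)
        obtain ⟨t, ht⟩ := FiniteMultiplicity.of_not_isUnit
          (PadicInt.prime_p (p := p)).not_isUnit hij
        rw [eventually_atTop]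
        refine ⟨t + 1, fun k hk hmem => ht ?_⟩
        obtain ⟨b, hb⟩ := hmem
        have h5 : (((ρ g : (Matrix (Fin N) (Fin N) ℤ_[p])ˣ) :
            Matrix (Fin N) (Fin N) ℤ_[p]) - 1) i j = (p : ℤ_[p]) ^ k * b i j := by
          rw [hb, add_sub_cancel_left, Matrix.smul_apply, smul_eq_mul]
        rw [h5]
        exact Dvd.dvd.mul_right (pow_dvd_pow _ hk) _
    rw [← hsr]
    exact hs
  · intro Δ hn hf hav hR
    obtain ⟨s, hs⟩ := tendsto_nrk_rok (redM (ZMod p) A) Δ hf hR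
    have hsr : s = r := h p ((le_max_left _ _).trans hp) Δ hn hf hav s hs
    rw [← hsr]
    exact hs

end Pool.Agent.LuA
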