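import Mathlib
import Pool.Agent.LuA.Large

/-!
# LuA / Lvl : congruence subgroups of a representation over `ℤ_p`; homology of a complex
(MP_05b873_al)
-/

namespace Pool.Agent.LuA

open Pool.Agent.CIR Pool.Agent.IWA Filter Topology Module

theorem lvl_cg_mono {R : Type} [CommRing R] {N p i j : ℕ} (h : i ≤ j) :
    cg R N p j ≤ cg R N p i := by
  rintro u ⟨a, ha⟩
  obtain ⟨d, rfl⟩ := Nat.exists_eq_add_of_le h
  refine ⟨((p : R) ^ d) • a, ?_⟩
  rw [ha, smul_smul, pow_add]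

theorem lvl_cg_normal {R : Type} [CommRing R] {N p : ℕ} (i : ℕ) :
    (cg R N p i).Normal := by
  constructor
  rintro u ⟨a, ha⟩ v
  refine ⟨(v : Matrix (Fin N) (Fin N) R) * a * (v⁻¹ : (Matrix (Fin N) (Fin N) R)ˣ), ?_⟩
  rw [Units.val_mul, Units.val_mul, ha, mul_add, mul_one, add_mul, Units.mul_inv,
    Matrix.mul_smul, Matrix.smul_mul]

variable {G : Type} [Group G] {p : ℕ} [Fact p.Prime] {N : ℕ}

theorem lvl_normal (ρ : G →* (Matrix (Fin N) (Fin N) ℤ_[p])ˣ) (k : ℕ) :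
    ((cg ℤ_[p] N p k).comap ρ).Normal := by
  have := lvl_cg_normal (R := ℤ_[p]) (N := N) (p := p) k
  exact Subgroup.Normal.comap this ρ

theorem lvl_anti (ρ : G →* (Matrix (Fin N) (Fin N) ℤ_[p])ˣ) :
    Antitone (fun k => (cg ℤ_[p] N p k).comap ρ) := fun _ _ h =>
  Subgroup.comap_mono (lvl_cg_mono h)

theorem lvl_finiteIndex (hp : 3 ≤ p) (hN : 0 < N) (ρ : G →* (Matrix (Fin N) (Fin N) ℤ_[p])ˣ)
    (h1 : ∀ g, ρ g ∈ cg ℤ_[p] N p 1) (k : ℕ) : ((cg ℤ_[p] N p k).comap ρ).FiniteIndex := by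
  obtain ⟨Gd, -⟩ := exists_good_Zp p
  obtain ⟨W⟩ := exists_GLTower Gd N 1 (by rwa [pow_one]) le_rfl one_pos hN
  have h2 : (cg ℤ_[p] N p (k + 1)).comap ρ = (W.T.L k).comap (ρ.codRestrict _ h1) := by
    ext g
    rw [W.hL, Subgroup.mem_comap, Subgroup.mem_comap, Subgroup.mem_subgroupOf, add_comm 1 k]
    rfl
  have h3 : (W.T.L k).FiniteIndex := ⟨by
    rw [W.T.index]
    exact pow_ne_zero _ (Fact.out : p.Prime).ne_zero⟩
  have h4 : ((cg ℤ_[p] N p (k + 1)).comap ρ).FiniteIndex := by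
    rw [h2]
    refine ⟨?_⟩
    rw [Subgroup.index_comap]
    exact ne_zero_of_dvd_ne_zero h3.index_ne_zero
      (Subgroup.relIndex_dvd_index_of_normal (W.T.L k) _)
  exact Subgroup.finiteIndex_of_le (Subgroup.comap_mono (lvl_cg_mono (Nat.le_succ k)))

theorem lvl_avoids (ρ : G →* (Matrix (Fin N) (Fin N) ℤ_[p])ˣ) (hρ : Function.Injective ρ) :
    Avoids (fun k => (cg ℤ_[p] N p k).comap ρ) := by
  intro g hg
  have h2 : ρ g ≠ 1 := fun h3 => hg (hρ (h3.trans (map_one ρ).symm))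
  have h3 : ((ρ g : (Matrix (Fin N) (Fin N) ℤ_[p])ˣ) : Matrix (Fin N) (Fin N) ℤ_[p]) -
      1 ≠ 0 := by
    intro h4
    apply h2
    apply Units.ext
    rw [Units.val_one]
    exact sub_eq_zero.1 h4
  obtain ⟨i, j, hij⟩ : ∃ i j, (((ρ g : (Matrix (Fin N) (Fin N) ℤ_[p])ˣ) :
      Matrix (Fin N) (Fin N) ℤ_[p]) - 1) i j ≠ 0 := by
    by_contra h4
    push Not at h4
    exact h3 (Matrix.ext h4)
  obtain ⟨t, ht⟩ := FiniteMultiplicity.of_not_isUnit
    (PadicInt.prime_p (p := p)).not_isUnit hij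
  rw [eventually_atTop]
  refine ⟨t + 1, fun k hk hmem => ht ?_⟩
  obtain ⟨b, hb⟩ := hmem
  have h5 : (((ρ g : (Matrix (Fin N) (Fin N) ℤ_[p])ˣ) :
      Matrix (Fin N) (Fin N) ℤ_[p]) - 1) i j = (p : ℤ_[p]) ^ k * b i j := by
    rw [hb, add_sub_cancel_left, Matrix.smul_apply, smul_eq_mul]
  rw [h5]
  exact Dvd.dvd.mul_right (pow_dvd_pow _ hk) _

/-- the operator of a matrix over the integral group ring on functions on `G ⧸ D` -/
noncomputable def opL (K : Type) [Field K] (D : Subgroup G) {m n : ℕ}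
    (A : Matrix (Fin m) (Fin n) (MonoidAlgebra ℤ G)) :
    (Fin n → (G ⧸ D) → K) →ₗ[K] (Fin m → (G ⧸ D) → K) :=
  bl ((redM K A).map (permAlg K (G ⧸ D)))

theorem opL_comp (K : Type) [Field K] (D : Subgroup G) {a b c : ℕ}
    (d₁ : Matrix (Fin a) (Fin b) (MonoidAlgebra ℤ G))
    (d₂ : Matrix (Fin b) (Fin c) (MonoidAlgebra ℤ G)) (hd : d₁ * d₂ = 0) :
    (opL K D d₁) ∘ₗ (opL K D d₂) = 0 := by
  unfold opL
  rw [← bl_mul]
  have h1 : (redM K d₁).map (permAlg K (G ⧸ D)) * (redM K d₂).map (permAlg K (G ⧸ D)) = 0 := by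
    have h2 : redM K d₁ * redM K d₂ = 0 := by
      unfold redM
      rw [← Matrix.map_mul, hd]
      ext1 i j
      rw [Matrix.map_apply, Matrix.zero_apply, map_zero, Matrix.zero_apply]
    have h3 : (redM K d₁).map (permAlg K (G ⧸ D)).toRingHom *
        (redM K d₂).map (permAlg K (G ⧸ D)).toRingHom = 0 := by
      rw [← Matrix.map_mul, h2]
      ext1 i j
      rw [Matrix.map_apply, Matrix.zero_apply, map_zero, Matrix.zero_apply]
    exact h3
  rw [h1]
  apply LinearMap.ext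
  intro v
  funext i
  rw [bl_apply]
  simp

/-- the dimension of the homology in terms of ranks -/
theorem hdim_eq (K : Type) [Field K] (D : Subgroup G) [D.FiniteIndex] {a b c : ℕ}
    (d₁ : Matrix (Fin a) (Fin b) (MonoidAlgebra ℤ G))
    (d₂ : Matrix (Fin b) (Fin c) (MonoidAlgebra ℤ G)) (hd : d₁ * d₂ = 0) :
    (finrank K (LinearMap.ker (opL K D d₁) ⧸
      (LinearMap.range (opL K D d₂)).submoduleOf (LinearMap.ker (opL K D d₁))) : ℝ) / D.index =
    b - nrk (redM K d₁) D - nrk (redM K d₂) D := by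
  classical
  let _ : Fintype (G ⧸ D) := Fintype.ofFinite _
  have hle : LinearMap.range (opL K D d₂) ≤ LinearMap.ker (opL K D d₁) := by
    rw [LinearMap.range_le_ker_iff]
    exact opL_comp K D d₁ d₂ hd
  have h1 := Submodule.finrank_quotient_add_finrank
    ((LinearMap.range (opL K D d₂)).submoduleOf (LinearMap.ker (opL K D d₁)))
  have h2 : finrank K ((LinearMap.range (opL K D d₂)).submoduleOf (LinearMap.ker (opL K D d₁))) =
      finrank K (LinearMap.range (opL K D d₂)) :=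
    (Submodule.submoduleOfEquivOfLe hle).finrank_eq
  have h3 := LinearMap.finrank_range_add_finrank_ker (opL K D d₁)
  have h4 : finrank K (Fin b → (G ⧸ D) → K) = b * D.index := by
    rw [Module.finrank_pi_fintype]
    simp [Subgroup.index_eq_card]
  have hidx : (0 : ℝ) < D.index := by
    exact_mod_cast Nat.pos_of_ne_zero Subgroup.FiniteIndex.index_ne_zero
  have h5 : (rkX (G ⧸ D) (redM K d₁)) = finrank K (LinearMap.range (opL K D d₁)) := rfl
  have h6 : (rkX (G ⧸ D) (redM K d₂)) = finrank K (LinearMap.range (opL K D d₂)) := rfl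
  unfold nrk
  rw [h5, h6]
  rw [h4] at h3
  rw [h2] at h1
  have h1' : (finrank K (LinearMap.ker (opL K D d₁) ⧸
      (LinearMap.range (opL K D d₂)).submoduleOf (LinearMap.ker (opL K D d₁))) : ℝ) +
      finrank K (LinearMap.range (opL K D d₂)) = finrank K (LinearMap.ker (opL K D d₁)) := by
    exact_mod_cast h1
  have h3' : (finrank K (LinearMap.range (opL K D d₁)) : ℝ) +
      finrank K (LinearMap.ker (opL K D d₁)) = b * D.index := by exact_mod_cast h3
  field_simp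
  linarith

end Pool.Agent.LuA
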